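import Pool.Agent.N966.CP.BASE

/-!
The smallest algebraically closed subfield over which several multi-valued maps are defined (after
`Pool/Agent/N966/CP/BASE.lean`).
-/

set_option autoImplicit false
set_option linter.unusedSectionVars false
set_option linter.overlappingInstances false

open Module IntermediateField Pool.Agent.N966.CP

namespace Pool.Agent.N214.CP

/-- **The base of several multi-valued maps.** -/
theorem base2 (L K : Type) [Field L] [Field K] [Algebra ℂ L] [Algebra ℂ K] [Algebra L K]
    [IsScalarTower ℂ L K] [FiniteDimensional L K] {J : Type} (E : J → Type)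
    [∀ j, Field (E j)] [∀ j, Algebra ℂ (E j)] [∀ j, Algebra (E j) K]
    [∀ j, IsScalarTower ℂ (E j) K] [∀ j, Algebra.EssFiniteType ℂ (E j)] :
    ∃ N : IntermediateField ℂ L, (∀ z : L, IsAlgebraic N z → z ∈ N) ∧
      (∀ j, ∀ z : E j, IsAlgebraic N (algebraMap (E j) K z)) ∧
      (∀ j, FiniteDimensional N
        (IntermediateField.adjoin N (Set.range (algebraMap (E j) K)))) ∧
      (∀ j, finrank N (IntermediateField.adjoin N (Set.range (algebraMap (E j) K))) ≤
        finrank L (IntermediateField.adjoin L (Set.range (algebraMap (E j) K)))) ∧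
      ∀ R : IntermediateField ℂ L, R ≤ N →
        (∀ j, ∀ z : E j, IsAlgebraic R (algebraMap (E j) K z)) →
        ∀ z ∈ N, IsAlgebraic R z := by
  classical
  have hL : CharZero L := charZero_of_injective_algebraMap (algebraMap ℂ L).injective
  let A := AlgebraicClosure K
  have halg : Algebra.IsAlgebraic L A := Algebra.IsAlgebraic.trans L K A
  have hac : IsAlgClosure L A := ⟨inferInstance, halg⟩
  have hnor : Normal L A := IsAlgClosure.normal L A
  let S : Set A := {x | ∃ (σ : A ≃ₐ[L] A) (j : J) (z : E j),
    x = σ (algebraMap K A (algebraMap (E j) K z))}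
  have hS : ∀ (σ : A ≃ₐ[L] A), ∀ z ∈ S, σ z ∈ aclo ℂ S := by
    rintro σ _ ⟨τ, j, z, rfl⟩
    exact subset_aclo S ⟨σ * τ, j, z, rfl⟩
  have hES : ∀ j, ∀ z : E j, algebraMap K A (algebraMap (E j) K z) ∈ S := fun j z => ⟨1, j, z, rfl⟩
  let N : IntermediateField ℂ L := base ℂ L S
  have hNT : IsScalarTower N K A := IsScalarTower.of_algebraMap_eq fun x =>
    IsScalarTower.algebraMap_apply L K A x
  have hNalg : ∀ j, ∀ z : E j, IsAlgebraic N (algebraMap (E j) K z) := by
    intro j z
    have h1 : IsAlgebraic N (algebraMap K A (algebraMap (E j) K z)) :=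
      alg_base hS (subset_aclo S (hES j z))
    exact (isAlgebraic_algebraMap_iff (algebraMap K A).injective).1 h1
  have hfin : ∀ j, FiniteDimensional N (adjoin N (Set.range (algebraMap (E j) K))) := by
    intro j
    obtain ⟨s, hs⟩ := IntermediateField.fg_top ℂ (E j)
    have h1 : adjoin N (Set.range (algebraMap (E j) K)) =
        adjoin N ((algebraMap (E j) K) '' (s : Set (E j))) := by
      apply le_antisymm
      · rw [adjoin_le_iff]
        rintro _ ⟨z, rfl⟩
        have hz : z ∈ adjoin ℂ (s : Set (E j)) := by
          rw [hs]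
          exact IntermediateField.mem_top
        have h2 : algebraMap (E j) K z ∈
            (adjoin ℂ (s : Set (E j))).map (IsScalarTower.toAlgHom ℂ (E j) K) :=
          ⟨z, hz, rfl⟩
        rw [IntermediateField.adjoin_map] at h2
        have h3 : adjoin ℂ ((IsScalarTower.toAlgHom ℂ (E j) K) '' (s : Set (E j))) ≤
            (adjoin N ((algebraMap (E j) K) '' (s : Set (E j)))).restrictScalars ℂ :=
          adjoin_le_iff.2 (subset_adjoin N _)
        exact h3 h2
      · exact adjoin.mono _ _ _ (Set.image_subset_range _ _)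
    rw [h1]
    have : Finite ((algebraMap (E j) K) '' (s : Set (E j))) :=
      (s.finite_toSet.image _).to_subtype
    refine IntermediateField.finiteDimensional_adjoin ?_
    rintro _ ⟨z, -, rfl⟩
    exact (hNalg j z).isIntegral
  refine ⟨N, fun z hz => base_closed hz, hNalg, hfin, ?_, ?_⟩
  · intro j
    have := hfin j
    exact finrank_closed (K := ℂ) (L₀ := N) fun z hz => base_closed hz
  · intro R hR hRalg z hz
    have hRT : IsScalarTower R K A := IsScalarTower.of_algebraMap_eq fun x =>
      IsScalarTower.algebraMap_apply L K A x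
    have h1 : S ⊆ aclo ℂ ((IsScalarTower.toAlgHom ℂ L A) '' (R : Set L)) := by
      rintro _ ⟨σ, j, w, rfl⟩
      apply mem_aclo_of_alg
      have h2 : IsAlgebraic R (algebraMap K A (algebraMap (E j) K w)) :=
        (isAlgebraic_algebraMap_iff (algebraMap K A).injective).2 (hRalg j w)
      exact h2.algHom ((σ : A →ₐ[L] A).restrictScalars R)
    exact alg_of_mem_aclo R (aclo_le h1 (mem_base.1 hz))

end Pool.Agent.N214.CP
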