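import Pool.Agent.N214.CP.Fin
import Pool.Agent.N214.CP.Base2

/-!
The fibration defined by several multi-valued maps to varieties whose canonical forms separate
points.
-/

set_option autoImplicit false
set_option linter.overlappingInstances false
set_option linter.unusedSectionVars false

open FF Module IntermediateField Pool.Agent.W602.GT Pool.Agent.W603.LV Pool.Agent.Y172

namespace Pool.Agent.N214.CP

/-- the product of two tensors -/
theorem exists_mul {N : Type} [Field N] {V : Type} [AddCommGroup V] [Module N V] {r1 r2 : ℕ}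
    (T1 : MultilinearMap N (fun _ : Fin r1 => V) N)
    (T2 : MultilinearMap N (fun _ : Fin r2 => V) N) :
    ∃ T : MultilinearMap N (fun _ : Fin (r1 + r2) => V) N, ∀ D, T D =
      T1 (fun i => D (Fin.castAdd r2 i)) * T2 (fun i => D (Fin.natAdd r1 i)) := by
  have h1 : ∀ [DecidableEq (Fin (r1 + r2))] (D : Fin (r1 + r2) → V) (i : Fin r1) (v : V),
      (fun k => Function.update D (Fin.castAdd r2 i) v (Fin.castAdd r2 k)) =
        Function.update (fun k => D (Fin.castAdd r2 k)) i v := by
    intro _ D i v
    funext k
    by_cases hk : k = i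
    · rw [hk, Function.update_self, Function.update_self]
    · rw [Function.update_of_ne hk, Function.update_of_ne]
      intro h
      exact hk (Fin.castAdd_injective _ _ h)
  have h2 : ∀ [DecidableEq (Fin (r1 + r2))] (D : Fin (r1 + r2) → V) (i : Fin r1) (v : V),
      (fun k => Function.update D (Fin.castAdd r2 i) v (Fin.natAdd r1 k)) =
        fun k => D (Fin.natAdd r1 k) := by
    intro _ D i v
    funext k
    rw [Function.update_of_ne]
    intro h
    have := congrArg Fin.val h
    simp only [Fin.val_natAdd, Fin.val_castAdd] at this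
    omega
  have h3 : ∀ [DecidableEq (Fin (r1 + r2))] (D : Fin (r1 + r2) → V) (i : Fin r2) (v : V),
      (fun k => Function.update D (Fin.natAdd r1 i) v (Fin.castAdd r2 k)) =
        fun k => D (Fin.castAdd r2 k) := by
    intro _ D i v
    funext k
    rw [Function.update_of_ne]
    intro h
    have := congrArg Fin.val h
    simp only [Fin.val_natAdd, Fin.val_castAdd] at this
    omega
  have h4 : ∀ [DecidableEq (Fin (r1 + r2))] (D : Fin (r1 + r2) → V) (i : Fin r2) (v : V),
      (fun k => Function.update D (Fin.natAdd r1 i) v (Fin.natAdd r1 k)) =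
        Function.update (fun k => D (Fin.natAdd r1 k)) i v := by
    intro _ D i v
    funext k
    by_cases hk : k = i
    · rw [hk, Function.update_self, Function.update_self]
    · rw [Function.update_of_ne hk, Function.update_of_ne]
      intro h
      apply hk
      have := congrArg Fin.val h
      simp only [Fin.val_natAdd] at this
      exact Fin.ext (by omega)
  refine ⟨{ toFun := fun D => T1 (fun i => D (Fin.castAdd r2 i)) *
              T2 (fun i => D (Fin.natAdd r1 i))
            map_update_add' := ?_
            map_update_smul' := ?_ }, fun D => rfl⟩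
  · intro _ D i v w
    refine Fin.addCases (fun i => ?_) (fun i => ?_) i
    · simp only [h1, h2]
      rw [T1.map_update_add, add_mul]
    · simp only [h3, h4]
      rw [T2.map_update_add, mul_add]
  · intro _ D i c v
    refine Fin.addCases (fun i => ?_) (fun i => ?_) i
    · simp only [h1, h2]
      rw [T1.map_update_smul, smul_eq_mul, smul_eq_mul, mul_assoc]
    · simp only [h3, h4]
      rw [T2.map_update_smul, smul_eq_mul, smul_eq_mul, mul_left_comm]

/-- the product of several tensors -/
theorem exists_prod {N : Type} [Field N] [Algebra ℂ N] {b : ℕ} {J : Type} [Finite J]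
    {r : J → ℕ} (T : ∀ j, MultilinearMap N (fun _ : Fin (r j) => Derivation ℂ N N) N)
    {ι : J → Type} (a : ∀ j, ι j → N) (hT0 : ∀ j, T j ≠ 0) (hT : ∀ j, TensorReg b (T j))
    (hTa : ∀ j i, TensorReg b (a j i • T j)) :
    ∃ (s : ℕ) (S : MultilinearMap N (fun _ : Fin s => Derivation ℂ N N) N), S ≠ 0 ∧
      TensorReg b S ∧ ∀ j i, TensorReg b (a j i • S) := by
  classical
  have := Fintype.ofFinite J
  have hall : ∀ F : Finset J, ∃ (s : ℕ)
      (S : MultilinearMap N (fun _ : Fin s => Derivation ℂ N N) N), S ≠ 0 ∧
      TensorReg b S ∧ ∀ j ∈ F, ∀ i, TensorReg b (a j i • S) := by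
    intro F
    induction F using Finset.induction_on with
    | empty =>
      refine ⟨0, MultilinearMap.constOfIsEmpty N _ 1, ?_, ?_, fun j hj => ?_⟩
      · intro h0
        have h1 := congrArg (fun S => S (fun i => Fin.elim0 i)) h0
        exact one_ne_zero h1
      · intro P _ D _
        exact P.reg_one
      · exact absurd hj (Finset.notMem_empty j)
    | insert j0 F hj0 ih =>
      obtain ⟨s, S, hS0, hS, hSa⟩ := ih
      obtain ⟨U, hU⟩ := exists_mul (T j0) S
      refine ⟨r j0 + s, U, ?_, ?_, ?_⟩
      · intro h0
        obtain ⟨D1, hD1⟩ : ∃ D1, T j0 D1 ≠ 0 := by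
          by_contra h
          push Not at h
          exact hT0 j0 (MultilinearMap.ext fun D => h D)
        obtain ⟨D2, hD2⟩ : ∃ D2, S D2 ≠ 0 := by
          by_contra h
          push Not at h
          exact hS0 (MultilinearMap.ext fun D => h D)
        have h1 := hU (Fin.append D1 D2)
        rw [h0] at h1
        simp only [Fin.append_left, Fin.append_right] at h1
        exact mul_ne_zero hD1 hD2 h1.symm
      · intro P hP D hD
        rw [hU]
        exact P.reg_mul (hT j0 P hP _ fun i => hD _) (hS P hP _ fun i => hD _)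
      · intro j hj i P hP D hD
        change P.Reg (a j i * U D)
        rw [hU]
        rcases Finset.mem_insert.1 hj with rfl | hj
        · rw [← mul_assoc]
          exact P.reg_mul (hTa j i P hP _ fun i => hD _) (hS P hP _ fun i => hD _)
        · rw [mul_left_comm]
          exact P.reg_mul (hT j0 P hP _ fun i => hD _) (hSa j hj i P hP _ fun i => hD _)
  obtain ⟨s, S, h0, h1, h2⟩ := hall Finset.univ
  exact ⟨s, S, h0, h1, fun j i => h2 j (Finset.mem_univ j) i⟩

/-- **Several multi-valued maps to varieties whose canonical forms separate points.** -/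
theorem main2 {L K : Type} [Field L] [Field K] [Algebra ℂ L] [Algebra ℂ K]
    [Algebra L K] [IsScalarTower ℂ L K] [FiniteDimensional L K] [Algebra.EssFiniteType ℂ L]
    {J : Type} [Finite J] (E : J → Type) [∀ j, Field (E j)] [∀ j, Algebra ℂ (E j)]
    [∀ j, Algebra (E j) K] [∀ j, IsScalarTower ℂ (E j) K]
    [∀ j, Algebra.EssFiniteType ℂ (E j)] {m : J → ℕ} (hE : ∀ j, Algebra.trdeg ℂ (E j) = m j)
    {x : ∀ j, Fin (m j) → E j} (hx : ∀ j, IsTranscendenceBasis ℂ (x j)) {g : J → ℕ}
    (hsep : ∀ j, Sep (HX (x j)) (g j))
    (hd : ∀ j, 2 * finrank L (IntermediateField.adjoin L (Set.range (algebraMap (E j) K))) <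
      g j) :
    ∃ (N : IntermediateField ℂ L) (b : ℕ), Algebra.trdeg ℂ N = b ∧
      (∀ z : L, IsAlgebraic N z → z ∈ N) ∧
      (∀ j, ∀ z : E j, IsAlgebraic N (algebraMap (E j) K z)) ∧
      Algebra.trdeg ℂ (IntermediateField.adjoin ℂ (⋃ j, Set.range (algebraMap (E j) K))) ≤ b ∧
      BigTensors N b := by
  classical
  obtain ⟨N, hcl, halg, hfin, hdeg, hmin⟩ := base2 L K E
  have hessN : Algebra.EssFiniteType ℂ N := ess_any N
  obtain ⟨b, hb⟩ : ∃ b : ℕ, Algebra.trdeg ℂ N = b :=
    Cardinal.lt_aleph0.1 (trdeg_lt (k := ℂ) (K := N))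
  -- the tensors of one map
  have hone : ∀ j, ∃ (r : ℕ) (T : MultilinearMap N (fun _ : Fin r => Derivation ℂ N N) N)
      (ι : Type) (a : ι → N), T ≠ 0 ∧ TensorReg b T ∧ (∀ i, TensorReg b (a i • T)) ∧
      ∀ z : E j, IsAlgebraic ((IntermediateField.adjoin ℂ (Set.range a)).map N.val)
        (algebraMap (E j) K z) := by
    intro j
    obtain ⟨M, hM⟩ : ∃ M : IntermediateField N K,
      M = IntermediateField.adjoin N (Set.range (algebraMap (E j) K)) := ⟨_, rfl⟩
    have hfj := hfin j
    have hdj := hdeg j
    rw [← hM] at hfj hdj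
    have hmem : ∀ z : E j, algebraMap (E j) K z ∈ M := fun z => by
      rw [hM]
      exact IntermediateField.subset_adjoin _ _ ⟨z, rfl⟩
    let iEM : Algebra (E j) M := RingHom.toAlgebra
      { toFun := fun z => ⟨algebraMap (E j) K z, hmem z⟩
        map_one' := Subtype.ext (map_one _)
        map_mul' := fun a b => Subtype.ext (map_mul _ a b)
        map_zero' := Subtype.ext (map_zero _)
        map_add' := fun a b => Subtype.ext (map_add _ a b) }
    have t1 : IsScalarTower ℂ N M := inferInstance
    have t2 : IsScalarTower ℂ (E j) M := IsScalarTower.of_algebraMap_eq fun c =>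
      Subtype.ext (IsScalarTower.algebraMap_apply ℂ (E j) K c)
    have hd' : 2 * finrank N (IntermediateField.adjoin N (Set.range (algebraMap (E j) M))) <
        g j := by
      have h1 : finrank N (IntermediateField.adjoin N (Set.range (algebraMap (E j) M))) ≤
          finrank N M :=
        LinearMap.finrank_le_finrank_of_injective
          (f := (IntermediateField.adjoin N (Set.range (algebraMap (E j) M))).val.toLinearMap)
          (IntermediateField.adjoin N (Set.range (algebraMap (E j) M))).val.injective
      have h2 := hd j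
      omega
    obtain ⟨r, T, ι, a, hT0, hT, hTa, halg'⟩ := core (N := N) (K := M) (E := E j) (hE j) hb
      (hx j) (hsep j) hd'
    refine ⟨r, T, ι, a, hT0, hT, hTa, fun z => ?_⟩
    obtain ⟨F, hF⟩ : ∃ F : IntermediateField ℂ N, F = IntermediateField.adjoin ℂ (Set.range a) :=
      ⟨_, rfl⟩
    rw [← hF] at halg' ⊢
    let f : F →+* F.map N.val :=
      { toFun := fun c => ⟨((c : N) : L), ⟨c, c.2, rfl⟩⟩
        map_one' := rfl
        map_mul' := fun _ _ => rfl
        map_zero' := rfl
        map_add' := fun _ _ => rfl }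
    exact (halg' z).ringHom_of_comp_eq f (algebraMap M K) f.injective rfl
  choose r T ι a hT0 hT hTa halg' using hone
  obtain ⟨s, S, hS0, hS, hSa⟩ := exists_prod T a hT0 hT hTa
  refine ⟨N, b, hb, hcl, halg, ?_, big_of (ι := Σ j, ι j) (a := fun p => a p.1 p.2) hb hS0 hS
    (fun p => hSa p.1 p.2) ?_⟩
  · let A0 : IntermediateField N K := algebraicClosure N K
    have h1 : Algebra.trdeg ℂ A0 = Algebra.trdeg ℂ N := by
      rw [← _root_.trdeg_add_eq ℂ N (A := A0)]
      have h2 : Algebra.trdeg N A0 = 0 := _root_.trdeg_eq_zero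
      rw [h2, add_zero]
    rw [hb] at h1
    rw [← h1]
    have hle : IntermediateField.adjoin ℂ (⋃ j, Set.range (algebraMap (E j) K)) ≤
        A0.restrictScalars ℂ := by
      rw [adjoin_le_iff]
      intro z hz
      obtain ⟨j, w, rfl⟩ := Set.mem_iUnion.1 hz
      exact mem_algebraicClosure_iff.2 (halg j w)
    exact _root_.trdeg_le_of_injective (IntermediateField.inclusion hle)
      (IntermediateField.inclusion hle).injective
  · intro w
    obtain ⟨F, hF⟩ : ∃ F : IntermediateField ℂ N, F =
      IntermediateField.adjoin ℂ (Set.range fun p : Σ j, ι j => a p.1 p.2) := ⟨_, rfl⟩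
    rw [← hF]
    have hle : F.map N.val ≤ N := by
      rintro _ ⟨c, -, rfl⟩
      exact c.2
    have h1 : ∀ j, ∀ z : E j, IsAlgebraic (F.map N.val) (algebraMap (E j) K z) := by
      intro j z
      have hjF : (IntermediateField.adjoin ℂ (Set.range (a j))).map N.val ≤ F.map N.val := by
        apply IntermediateField.map_mono
        rw [hF]
        apply IntermediateField.adjoin.mono
        rintro _ ⟨i, rfl⟩
        exact ⟨⟨j, i⟩, rfl⟩
      exact (halg' j z).ringHom_of_comp_eq (IntermediateField.inclusion hjF).toRingHom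
        (RingHom.id K) (IntermediateField.inclusion hjF).injective rfl
    have h2 := hmin _ hle h1 (w : L) w.2
    exact (isAlgebraic_ringHom_iff_of_comp_eq (equivMap F N.val) N.val N.val.injective rfl).1 h2

end Pool.Agent.N214.CP
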