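import Pool.Agent.N214.CP.Treg
import Pool.Agent.N123.SX.PullCore
import Pool.Agent.N826.CP.SPAN
import Pool.Agent.N218.CP.PTS
import Pool.Agent.N767.CP.MLIN

/-!
Tensor forms on the base of a multi-valued map.
-/

set_option autoImplicit false
set_option linter.overlappingInstances false
set_option linter.unusedSectionVars false

open FF Module Pool.Agent.W602.GT Pool.Agent.W603.LV Pool.Agent.Y172

namespace Pool.Agent.N214.CP

/-- the functions `f` such that `f dx 1 ... dx m` is a regular canonical form -/
def HX {E : Type} [Field E] [Algebra ℂ E] {m : ℕ} (x : Fin m → E) : Set E :=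
  {f | ∀ P : Place ℂ E, Divisorial m P → RegAt P (fun D : Fin m → Derivation ℂ E E =>
    (Matrix.of fun i j => D i (x j) : Matrix (Fin m) (Fin m) E).det * f)}

/-- `T` is regular at all prime divisors: its values on regular vector fields are regular. -/
def TensorReg {N : Type} [Field N] [Algebra ℂ N] (b : ℕ) {r : ℕ}
    (T : MultilinearMap N (fun _ : Fin r => Derivation ℂ N N) N) : Prop :=
  ∀ P : Place ℂ N, Divisorial b P → ∀ D : Fin r → Derivation ℂ N N, (∀ i, DerReg P (D i)) →
    P.Reg (T D)

section

variable {N K E : Type} [Field N] [Field K] [Field E] [Algebra ℂ N] [Algebra ℂ K] [Algebra ℂ E]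
  [Algebra N K] [Algebra E K] [IsScalarTower ℂ N K] [IsScalarTower ℂ E K]
  [FiniteDimensional N K]

/-- pull-backs of canonical forms -/
theorem pull_reg' [Algebra.EssFiniteType ℂ E] {m b : ℕ} (hE : Algebra.trdeg ℂ E = m)
    (hK : Algebra.trdeg ℂ K = b) {x : Fin m → E} (hx : IsTranscendenceBasis ℂ x) {f : E}
    (hf : f ∈ HX x) {Q : Place ℂ K} (hQ : Divisorial b Q) {D : Fin m → Derivation ℂ K K}
    (hD : ∀ i, DerReg Q (D i)) :
    Q.Reg ((Matrix.of fun i j => D i (algebraMap E K (x j)) : Matrix (Fin m) (Fin m) K).det *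
      algebraMap E K f) :=
  Pool.Agent.N123.SX.pull E K m b hE hK x hx (fun _ => False) f
    (fun P hP => ⟨fun D hD => hf P hP D fun i => derReg_of_log (hD i),
      fun _ => hf P hP⟩) Q hQ D (Or.inr ⟨fun ⟨_, _, h, _⟩ => h, hD⟩)

/-- lifts are unique -/
theorem lift_unique {b : ℕ} (hN : Algebra.trdeg ℂ N = b) {D1 D2 : Derivation ℂ K K}
    (h : ∀ f : N, D1 (algebraMap N K f) = D2 (algebraMap N K f)) : D1 = D2 := by
  obtain ⟨y, G, hy, hG⟩ := exists_crd hN
  choose G' hG' using fun i => exists_lift (L := K) hN (G i)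
  have h1 := Pool.Agent.W73.PG.PULL.expand _ (hy.algebraMap_comp (A := K)) G'
    (lift_dual hG hG')
  rw [← h1 D1, ← h1 D2]
  exact Finset.sum_congr rfl fun i _ => by
    rw [Function.comp_apply, h]

/-- determinants of regular functions are regular -/
theorem det_reg {F : Type} [Field F] [Algebra ℂ F] (P : Place ℂ F) {e : ℕ}
    (M : Matrix (Fin e) (Fin e) F) (h : ∀ i j, P.Reg (M i j)) : P.Reg M.det :=
  Pool.Agent.W603.LV.ge_det P M _ (fun _ _ => 0) (fun a b => h a b) fun σ => by simp

/-- a vector field dual to algebraically independent functions -/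
theorem exists_dual' {m : ℕ} {x : Fin m → K} (hx : AlgebraicIndependent ℂ x) :
    ∃ Z : Fin m → Derivation ℂ K K, ∀ i j, Z i (x j) = if i = j then 1 else 0 := by
  classical
  obtain ⟨t, hxt, ht⟩ := exists_isTranscendenceBasis_superset (R := ℂ)
    (s := Set.range x) hx.to_subtype_range
  have hmem : ∀ j, x j ∈ t := fun j => hxt ⟨j, rfl⟩
  choose Z hZ using fun i : Fin m => exists_der (L := ℂ) (fun z : t => (z : K)) ht
    fun z => if (z : K) = x i then (1 : K) else 0
  refine ⟨Z, fun i j => ?_⟩
  have h1 := hZ i ⟨x j, hmem j⟩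
  rw [h1]
  have h2 : x j = x i ↔ i = j := ⟨fun h => (hx.injective h).symm, fun h => by rw [h]⟩
  simp only [h2]

/-- **The tensor forms.** -/
theorem core [Algebra.EssFiniteType ℂ E] [Algebra.EssFiniteType ℂ N] {m b : ℕ}
    (hE : Algebra.trdeg ℂ E = m) (hN : Algebra.trdeg ℂ N = b) {x : Fin m → E}
    (hx : IsTranscendenceBasis ℂ x) {g : ℕ} (hsep : Sep (HX x) g)
    (hd : 2 * finrank N (IntermediateField.adjoin N (Set.range (algebraMap E K))) < g) :
    ∃ (r : ℕ) (T : MultilinearMap N (fun _ : Fin r => Derivation ℂ N N) N) (ι : Type)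
      (a : ι → N), T ≠ 0 ∧ TensorReg b T ∧ (∀ i, TensorReg b (a i • T)) ∧
      ∀ z : E, IsAlgebraic (IntermediateField.adjoin ℂ (Set.range a)) (algebraMap E K z) := by
  classical
  have hK : Algebra.trdeg ℂ K = b := trdeg_up (K := N) hN
  have hessK : Algebra.EssFiniteType ℂ K := Algebra.EssFiniteType.comp ℂ N K
  choose lift hlift using fun D : Derivation ℂ N N => exists_lift (L := K) hN D
  obtain ⟨y, G, hy, hG⟩ := exists_crd hN
  obtain ⟨J, hJ⟩ : ∃ J : (Fin m → Derivation ℂ N N) → K, ∀ D, J D =
    (Matrix.of fun i j => lift (D i) (algebraMap E K (x j)) : Matrix (Fin m) (Fin m) K).det :=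
    ⟨_, fun _ => rfl⟩
  obtain ⟨τ, hτ⟩ : ∃ τ : (HX x) → (Fin m → Derivation ℂ N N) → N, ∀ f D, τ f D =
    Algebra.trace N K (J D * algebraMap E K (f : E)) := ⟨_, fun _ _ => rfl⟩
  -- finite dimension
  have hfin : FiniteDimensional N (Submodule.span N (Set.range τ)) := by
    let w : (Fin m → Fin b) → (Fin m → Derivation ℂ N N) → N := fun κ D => ∏ i, D i (y (κ i))
    have hle : Submodule.span N (Set.range τ) ≤ Submodule.span N (Set.range w) := by
      rw [Submodule.span_le]
      rintro _ ⟨f, rfl⟩
      have h1 : τ f = ∑ κ, (τ f fun i => G (κ i)) • w κ := by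
        funext D
        rw [Finset.sum_apply, hτ, hJ, tr_expand hy hG (fun i f => hlift (G i) f) _ _ D
          (fun i => lift (D i)) (fun i f => hlift (D i) f)]
        refine Finset.sum_congr rfl fun κ _ => ?_
        rw [Pi.smul_apply, smul_eq_mul, mul_comm, hτ, hJ]
      rw [h1]
      exact Submodule.sum_mem _ fun κ _ => Submodule.smul_mem _ _
        (Submodule.subset_span ⟨κ, rfl⟩)
    have h2 : FiniteDimensional N (Submodule.span N (Set.range w)) :=
      FiniteDimensional.span_of_finite N (Set.finite_range w)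
    exact Submodule.finiteDimensional_of_le hle
  obtain ⟨e, h, a, Ds, ha, hdet⟩ := Pool.Agent.N826.CP.SPAN N (HX x) (Fin m → Derivation ℂ N N)
    τ hfin
  -- the tensor
  obtain ⟨r, ψ, T, hψ, hT⟩ := Pool.Agent.N767.CP.MLIN N K m e (fun j => algebraMap E K (x j))
    (fun i => algebraMap E K (h i : E)) lift hlift
  have hTτ : ∀ D, T D = (Matrix.of fun i j => τ (h i) (fun k => D (ψ j k)) :
      Matrix (Fin e) (Fin e) N).det := by
    intro D
    rw [hT]
    congr 1
    ext i j
    rw [Matrix.of_apply, Matrix.of_apply, hτ, hJ]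
  have hreg : ∀ (f : HX x) (P : Place ℂ N), Divisorial b P →
      ∀ D : Fin m → Derivation ℂ N N, (∀ i, DerReg P (D i)) → P.Reg (τ f D) := by
    intro f P hP D hD
    rw [hτ, hJ]
    exact treg hN (fun j => algebraMap E K (x j)) _ hP (fun Q e' hQ D' hD' =>
      pull_reg' hE hK hx f.2 (divisorial_up hQ hP) hD') D hD (fun i => lift (D i))
      fun i f => hlift (D i) f
  refine ⟨r, T, (HX x) × Fin e, fun p => a p.1 p.2, ?_, ?_, ?_, ?_⟩
  · intro h0
    obtain ⟨D, hD⟩ := hψ Ds
    apply hdet
    have h1 := hTτ D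
    rw [h0] at h1
    change (0 : N) = _ at h1
    rw [h1]
    congr 1
    ext i j
    rw [Matrix.of_apply, Matrix.of_apply]
    congr 1
    funext k
    exact (hD j k).symm
  · intro P hP D hD
    rw [hTτ]
    exact det_reg P _ fun i j => hreg _ P hP _ fun k => hD _
  · rintro ⟨f, i0⟩ P hP D hD
    change P.Reg (a f i0 * T D)
    rw [hTτ]
    have h1 : a f i0 * (Matrix.of fun i j => τ (h i) (fun k => D (ψ j k)) :
        Matrix (Fin e) (Fin e) N).det =
        ((Matrix.of fun i j => τ (h i) (fun k => D (ψ j k)) :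
          Matrix (Fin e) (Fin e) N).updateRow i0 (fun j => τ f (fun k => D (ψ j k)))).det := by
      have h2 := Matrix.det_updateRow_sum (Matrix.of fun i j => τ (h i) (fun k => D (ψ j k)) :
        Matrix (Fin e) (Fin e) N) i0 (a f)
      rw [smul_eq_mul] at h2
      rw [← h2]
      congr 2
      funext j
      rw [Finset.sum_apply, ha f]
      rfl
    rw [h1]
    refine det_reg P _ fun i j => ?_
    rw [Matrix.updateRow_apply]
    split_ifs
    · exact hreg _ P hP _ fun k => hD _
    · exact hreg _ P hP _ fun k => hD _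
  · -- the points
    have hmem : ∀ D, J D ∈ IntermediateField.adjoin N (Set.range (algebraMap E K)) := by
      intro D
      obtain ⟨M, hM⟩ : ∃ M, M = IntermediateField.adjoin N (Set.range (algebraMap E K)) :=
        ⟨_, rfl⟩
      rw [← hM]
      have hxM : ∀ j, algebraMap E K (x j) ∈ M := by
        intro j
        rw [hM]
        exact IntermediateField.subset_adjoin _ _ ⟨_, rfl⟩
      have htrM : Algebra.trdeg ℂ M = b := trdeg_up (K := N) hN
      have hT1 : IsScalarTower ℂ M K := IsScalarTower.of_algebraMap_eq fun z => rfl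
      have hent : ∀ (D : Derivation ℂ N N) (z : M), lift D (z : K) ∈ M := by
        intro D z
        obtain ⟨D1, hD1⟩ := exists_lift (L := M) hN D
        obtain ⟨D2, hD2⟩ := exists_lift (L := K) htrM D1
        have h1 : D2 = lift D := by
          refine lift_unique (N := N) hN fun f => ?_
          rw [hlift, ← IsScalarTower.algebraMap_apply N M K f |>.symm, hD2, hD1]
          rfl
        rw [← h1]
        have h2 := hD2 z
        change D2 (z : K) = _ at h2
        rw [h2]
        exact (D1 z).2
      rw [hJ, Matrix.det_apply]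
      refine sum_mem fun σ _ => ?_
      have h1 : ∀ s : ℤˣ, ∀ w ∈ M, s • w ∈ M := by
        intro s w hw
        rcases Int.units_eq_one_or s with h | h
        · rw [h, one_smul]
          exact hw
        · rw [h, Units.neg_smul, one_smul]
          exact neg_mem hw
      refine h1 _ _ (prod_mem fun i _ => ?_)
      rw [Matrix.of_apply]
      exact hent _ ⟨_, hxM i⟩
    have hne : ∃ D, J D ≠ 0 := by
      by_contra h0
      push Not at h0
      have hind : AlgebraicIndependent ℂ fun l : Fin m => algebraMap E K (x l) :=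
        hx.1.map' (f := IsScalarTower.toAlgHom ℂ E K) (algebraMap E K).injective
      obtain ⟨Z, hZ⟩ := exists_dual' hind
      have h1 := det_expand hy hG (fun i f => hlift (G i) f) (fun j => algebraMap E K (x j)) Z
      have h2 : (Matrix.of fun i j => Z i (algebraMap E K (x j)) :
          Matrix (Fin m) (Fin m) K) = 1 := by
        ext i j
        rw [Matrix.of_apply, hZ, Matrix.one_apply]
      rw [h2, Matrix.det_one] at h1
      have h3 : ∀ κ : Fin m → Fin b, (Matrix.of fun i j => lift (G (κ i)) (algebraMap E K (x j)) :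
          Matrix (Fin m) (Fin m) K).det = 0 := by
        intro κ
        have h4 := h0 fun i => G (κ i)
        rwa [hJ] at h4
      simp only [h3, mul_zero, Finset.sum_const_zero] at h1
      exact one_ne_zero h1
    obtain ⟨a', ha'⟩ : ∃ a' : E → Fin e → N, ∀ (f : HX x) i, a' f i = a f i := by
      refine ⟨fun f i => if hf : f ∈ HX x then a ⟨f, hf⟩ i else 0, fun f i => ?_⟩
      change (if hf : (f : E) ∈ HX x then a ⟨f, hf⟩ i else 0) = _
      rw [dif_pos f.2]
    have hpts := Pool.Agent.N218.CP.PTS N K E (HX x) g hsep hd (Fin m → Derivation ℂ N N) J hmem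
      hne e (fun i => (h i : E)) a' Ds (fun f hf D => by
        have h1 := ha ⟨f, hf⟩ D
        rw [hτ] at h1
        rw [h1]
        refine Finset.sum_congr rfl fun i _ => ?_
        rw [hτ, ← ha' ⟨f, hf⟩]) (by
        have h1 : (Matrix.of fun i j => Algebra.trace N K (J (Ds j) * algebraMap E K (h i : E)) :
            Matrix (Fin e) (Fin e) N) = Matrix.of fun i j => τ (h i) (Ds j) := by
          ext i j
          rw [Matrix.of_apply, Matrix.of_apply, hτ]
        rw [h1]
        exact hdet)
    intro z
    have h1 := hpts z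
    have h2 : (fun p : (HX x) × Fin e => a' (p.1 : E) p.2) = fun p => a p.1 p.2 := by
      funext p
      exact ha' p.1 p.2
    rw [h2] at h1
    exact h1

end

end Pool.Agent.N214.CP
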