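import Pool.Agent.N966.CP.BASE
import Pool.Agent.R885.FinAc

/-!
Intermediate fields of finitely generated extensions are finitely generated (copied from
`Pool/Agent/N133/CC1.lean`, helper133, with lighter imports).
-/

set_option autoImplicit false
set_option linter.overlappingInstances false
set_option linter.unusedSectionVars false

open IntermediateField Module Pool.Agent.N966.CP

namespace Pool.Agent.N214.CP

section fg

variable {k K : Type} [Field k] [Field K] [Algebra k K]

/-- the transcendence degree of a finitely generated extension is finite -/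
theorem trdeg_lt [Algebra.EssFiniteType k K] : Algebra.trdeg k K < Cardinal.aleph0 := by
  obtain ⟨s, hs⟩ := IntermediateField.fg_top k K
  have h2 : Algebra.IsAlgebraic (Algebra.adjoin k (s : Set K)) K := by
    constructor
    intro w
    have h3 : w ∈ IntermediateField.adjoin k (s : Set K) := by
      rw [hs]
      trivial
    rw [IntermediateField.mem_adjoin_iff_div] at h3
    obtain ⟨a, ha, b, hb, rfl⟩ := h3
    have ha' : IsAlgebraic (Algebra.adjoin k (s : Set K)) a :=
      isAlgebraic_algebraMap (R := Algebra.adjoin k (s : Set K)) (A := K) ⟨a, ha⟩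
    have hb' : IsAlgebraic (Algebra.adjoin k (s : Set K)) b :=
      isAlgebraic_algebraMap (R := Algebra.adjoin k (s : Set K)) (A := K) ⟨b, hb⟩
    rw [div_eq_mul_inv]
    exact ha'.mul hb'.inv
  obtain ⟨B, hB, hBt⟩ := exists_isTranscendenceBasis_subset (R := k) (s : Set K)
  rw [← hBt.cardinalMk_eq_trdeg]
  exact Cardinal.lt_aleph0_iff_finite.2 (s.finite_toSet.subset hB)

/-- **Intermediate fields of finitely generated extensions are finitely generated.** -/
theorem ess_any [hess : Algebra.EssFiniteType k K] (E : IntermediateField k K) :
    Algebra.EssFiniteType k E := by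
  obtain ⟨ι, z, hz⟩ := exists_isTranscendenceBasis' k E
  let zK : ι → K := fun i => (z i : K)
  have hzK : AlgebraicIndependent k zK := hz.1.map' (f := E.val) E.val.injective
  have hfinι : Finite ι := by
    have h2 : Cardinal.mk ι ≤ Algebra.trdeg k K := hzK.cardinalMk_le_trdeg
    exact Cardinal.lt_aleph0_iff_finite.1 (h2.trans_lt trdeg_lt)
  let E1 : IntermediateField k K := IntermediateField.adjoin k (Set.range zK)
  have hessE1 : Algebra.EssFiniteType k E1 := by
    rw [IntermediateField.essFiniteType_iff]
    exact IntermediateField.fg_adjoin_of_finite (Set.finite_range zK)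
  have hess1 : Algebra.EssFiniteType E1 K := Algebra.EssFiniteType.of_comp k E1 K
  have hfin1 := Pool.Agent.R885.fin_algClosure E1 K
  have hEle : E1 ≤ E := by
    rw [IntermediateField.adjoin_le_iff]
    rintro _ ⟨i, rfl⟩
    exact (z i).2
  have hle : E ≤ aclo k (Set.range zK) := by
    intro x hx
    have h1 : (⟨x, hx⟩ : E) ∈ aclo k (Set.range z) := mem_aclo.2 (hz.isAlgebraic_field.isAlgebraic _)
    have h2 := (map_mem_aclo_iff E.val (Set.range z) ⟨x, hx⟩).2 h1
    rw [← Set.range_comp] at h2
    exact h2
  let L' : IntermediateField E1 K := IntermediateField.extendScalars hEle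
  have hle' : L' ≤ algebraicClosure E1 K := fun x hx => hle hx
  have hfin' : FiniteDimensional E1 L' :=
    FiniteDimensional.of_injective (IntermediateField.inclusion hle').toLinearMap
      (IntermediateField.inclusion hle').injective
  have h1 : Algebra.EssFiniteType E1 L' := inferInstance
  have h2 : Algebra.EssFiniteType k L' := Algebra.EssFiniteType.comp k E1 L'
  exact h2

end fg

end Pool.Agent.N214.CP
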