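import Pool.Agent.N214.CP.Core
import Pool.Agent.N214.CP.Ess

/-!
The fibration defined by a multi-valued map to a variety whose canonical forms separate points.
-/

set_option autoImplicit false
set_option linter.overlappingInstances false
set_option linter.unusedSectionVars false

open FF Module IntermediateField Pool.Agent.W602.GT Pool.Agent.W603.LV Pool.Agent.Y172

namespace Pool.Agent.N214.CP

/-- There is a tensor form `T ≠ 0` and there are `b` algebraically independent functions `c k` such
that `T` and all `c k • T` are regular at all prime divisors. -/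
def BigTensors (N : Type) [Field N] [Algebra ℂ N] (b : ℕ) : Prop :=
  ∃ (r : ℕ) (T : MultilinearMap N (fun _ : Fin r => Derivation ℂ N N) N) (c : Fin b → N),
    T ≠ 0 ∧ TensorReg b T ∧ (∀ k, TensorReg b (c k • T)) ∧ AlgebraicIndependent ℂ c

open scoped IntermediateField.algebraAdjoinAdjoin in
theorem alg_adjoin' {k N : Type} [Field k] [Field N] [Algebra k N] {S : Set N}
    (halg : Algebra.IsAlgebraic (IntermediateField.adjoin k S) N) :
    Algebra.IsAlgebraic (Algebra.adjoin k S) N :=
  (IsFractionRing.comap_isAlgebraic_iff (A := Algebra.adjoin k S)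
      (K := IntermediateField.adjoin k S) (C := N)).2 halg

theorem big_of {N : Type} [Field N] [Algebra ℂ N] {b r : ℕ} (hN : Algebra.trdeg ℂ N = b)
    {T : MultilinearMap N (fun _ : Fin r => Derivation ℂ N N) N} {ι : Type} {a : ι → N}
    (hT0 : T ≠ 0) (hT : TensorReg b T) (hTa : ∀ i, TensorReg b (a i • T))
    (halg : ∀ w : N, IsAlgebraic (IntermediateField.adjoin ℂ (Set.range a)) w) :
    BigTensors N b := by
  have h1 : Algebra.IsAlgebraic (IntermediateField.adjoin ℂ (Set.range a)) N := ⟨halg⟩
  have h2 := alg_adjoin' h1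
  obtain ⟨B, hB, hBt⟩ := exists_isTranscendenceBasis_subset (R := ℂ) (Set.range a)
  have hcard := hBt.cardinalMk_eq_trdeg
  rw [hN] at hcard
  obtain ⟨ψ⟩ : Nonempty (Fin b ≃ B) := by
    rw [← Cardinal.eq, Cardinal.mk_fin]
    exact hcard.symm
  have hub : IsTranscendenceBasis ℂ (fun l => (ψ l : N)) := hBt.comp_equiv ψ
  choose i hi using fun l => hB (ψ l).2
  refine ⟨r, T, fun l => (ψ l : N), hT0, hT, fun k => ?_, hub.1⟩
  change TensorReg b ((ψ k : N) • T)
  rw [← hi k]
  exact hTa _

/-- **Multi-valued maps to varieties whose canonical forms separate points.** -/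
theorem main {L K E : Type} [Field L] [Field K] [Field E] [Algebra ℂ L] [Algebra ℂ K]
    [Algebra ℂ E] [Algebra L K] [Algebra E K] [IsScalarTower ℂ L K] [IsScalarTower ℂ E K]
    [FiniteDimensional L K] [Algebra.EssFiniteType ℂ L] [Algebra.EssFiniteType ℂ E] {m : ℕ}
    (hE : Algebra.trdeg ℂ E = m) {x : Fin m → E} (hx : IsTranscendenceBasis ℂ x) {g : ℕ}
    (hsep : Sep (HX x) g)
    (hd : 2 * finrank L (IntermediateField.adjoin L (Set.range (algebraMap E K))) < g) :
    ∃ (N : IntermediateField ℂ L) (b : ℕ), m ≤ b ∧ Algebra.trdeg ℂ N = b ∧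
      (∀ z : L, IsAlgebraic N z → z ∈ N) ∧ (∀ z : E, IsAlgebraic N (algebraMap E K z)) ∧
      BigTensors N b := by
  classical
  obtain ⟨N, hcl, halg, hfin, hdeg, hmin⟩ := Pool.Agent.N966.CP.BASE L K E
  have hessN : Algebra.EssFiniteType ℂ N := ess_any N
  obtain ⟨b, hb⟩ : ∃ b : ℕ, Algebra.trdeg ℂ N = b :=
    Cardinal.lt_aleph0.1 (trdeg_lt (k := ℂ) (K := N))
  obtain ⟨M, hM⟩ : ∃ M : IntermediateField N K,
    M = IntermediateField.adjoin N (Set.range (algebraMap E K)) := ⟨_, rfl⟩
  rw [← hM] at hfin hdeg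
  have hmem : ∀ z : E, algebraMap E K z ∈ M := fun z => by
    rw [hM]
    exact IntermediateField.subset_adjoin _ _ ⟨z, rfl⟩
  let iEM : Algebra E M := RingHom.toAlgebra
    { toFun := fun z => ⟨algebraMap E K z, hmem z⟩
      map_one' := Subtype.ext (map_one _)
      map_mul' := fun a b => Subtype.ext (map_mul _ a b)
      map_zero' := Subtype.ext (map_zero _)
      map_add' := fun a b => Subtype.ext (map_add _ a b) }
  have hEM : ∀ z : E, (algebraMap E M z : K) = algebraMap E K z := fun z => rfl
  have t1 : IsScalarTower ℂ N M := inferInstance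
  have t2 : IsScalarTower ℂ E M := IsScalarTower.of_algebraMap_eq fun c =>
    Subtype.ext (IsScalarTower.algebraMap_apply ℂ E K c)
  have hd' : 2 * finrank N (IntermediateField.adjoin N (Set.range (algebraMap E M))) < g := by
    have h1 : finrank N (IntermediateField.adjoin N (Set.range (algebraMap E M))) ≤ finrank N M :=
      LinearMap.finrank_le_finrank_of_injective
        (f := (IntermediateField.adjoin N (Set.range (algebraMap E M))).val.toLinearMap)
        (IntermediateField.adjoin N (Set.range (algebraMap E M))).val.injective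
    omega
  obtain ⟨r, T, ι, a, hT0, hT, hTa, halg'⟩ := core (N := N) (K := M) (E := E) hE hb hx hsep hd'
  refine ⟨N, b, ?_, hb, hcl, halg, big_of hb hT0 hT hTa ?_⟩
  · have hMb : Algebra.trdeg ℂ M = b := trdeg_up (K := N) hb
    have hind : AlgebraicIndependent ℂ fun l : Fin m => algebraMap E M (x l) :=
      hx.1.map' (f := IsScalarTower.toAlgHom ℂ E M) (algebraMap E M).injective
    have h1 := hind.cardinalMk_le_trdeg
    rw [hMb, Cardinal.mk_fin] at h1
    exact_mod_cast h1
  · intro w
    obtain ⟨F, hF⟩ : ∃ F : IntermediateField ℂ N, F = IntermediateField.adjoin ℂ (Set.range a) :=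
      ⟨_, rfl⟩
    rw [← hF] at halg' ⊢
    have hle : F.map N.val ≤ N := by
      rintro _ ⟨c, -, rfl⟩
      exact c.2
    have h1 : ∀ z : E, IsAlgebraic (F.map N.val) (algebraMap E K z) := by
      intro z
      let f : F →+* F.map N.val :=
        { toFun := fun c => ⟨((c : N) : L), ⟨c, c.2, rfl⟩⟩
          map_one' := rfl
          map_mul' := fun _ _ => rfl
          map_zero' := rfl
          map_add' := fun _ _ => rfl }
      exact (halg' z).ringHom_of_comp_eq f (algebraMap M K) f.injective rfl
    have h2 := hmin _ hle h1 (w : L) w.2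
    exact (isAlgebraic_ringHom_iff_of_comp_eq (equivMap F N.val) N.val N.val.injective rfl).1 h2

/-- **Separation of points in coordinates.** -/
theorem sep_of {E : Type} [Field E] [Algebra ℂ E] {m : ℕ} {x : Fin m → E}
    {D : Fin m → Derivation ℂ E E} (hx : IsTranscendenceBasis ℂ x)
    (hD : ∀ i j, D i (x j) = if i = j then 1 else 0) {r : ℕ}
    (h : ∀ (Ω : Type) [Field Ω] [Algebra ℂ Ω] [IsAlgClosed Ω] (A : Finset (E →ₐ[ℂ] Ω)),
      A.card ≤ r → ∀ c : (E →ₐ[ℂ] Ω) → Ω,
      (∀ ω, IsPluri 1 ω → (∀ P : Place ℂ E, Divisorial m P → RegAt P ω) →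
        ∑ σ ∈ A, c σ * σ (ω D) = 0) → ∀ σ ∈ A, c σ = 0) :
    Sep (HX x) (r + 1) := by
  intro Ω _ _ _ A hA c hc
  refine h Ω A (by omega) c fun ω h1 h2 => hc _ fun P hP => ?_
  have h3 : (fun D' : Fin m → Derivation ℂ E E =>
      (Matrix.of fun i j => D' i (x j) : Matrix (Fin m) (Fin m) E).det * ω D) = ω := by
    funext D'
    rw [pluri_coord hx hD h1 D', pow_one]
  rw [h3]
  exact h2 P hP

/-- dual derivations are linearly independent -/
theorem dual_indep {E : Type} [Field E] [Algebra ℂ E] {m : ℕ} {x : Fin m → E}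
    {D : Fin m → Derivation ℂ E E}
    (hD : ∀ i j, D i (x j) = if i = j then 1 else 0) : LinearIndependent E D := by
  classical
  rw [Fintype.linearIndependent_iff]
  intro c hc i
  have h1 : (∑ j, c j • D j : Derivation ℂ E E) (x i) = 0 := by
    rw [hc]
    rfl
  have h2 : (∑ j, c j • D j : Derivation ℂ E E) (x i) = ∑ j, c j * D j (x i) :=
    Pool.Agent.W73.PG.PULL.sum_app _ _ _
  rw [h2] at h1
  simp only [hD, mul_ite, mul_one, mul_zero, Finset.sum_ite_eq', Finset.mem_univ, if_true] at h1
  exact h1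

end Pool.Agent.N214.CP
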