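import Mathlib

/-!
Project CP (helper214): statements of the algebraic leaves. Only Mathlib is needed.
-/

set_option autoImplicit false

open Module

namespace Pool.Agent.N214.CP

/-- The functions in `Φ` separate less than `g` generic points. -/
def Sep {E : Type} [Field E] [Algebra ℂ E] (Φ : Set E) (g : ℕ) : Prop :=
  ∀ (Ω : Type) [Field Ω] [Algebra ℂ Ω] [IsAlgClosed Ω] (A : Finset (E →ₐ[ℂ] Ω)), A.card < g →
    ∀ c : (E →ₐ[ℂ] Ω) → Ω, (∀ f ∈ Φ, ∑ σ ∈ A, c σ * σ f = 0) → ∀ σ ∈ A, c σ = 0

/-- **SPAN.** A family of functions in a finite dimensional space: a basis of the span from the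
family, and points where its values have a determinant which is not zero. -/
def S_SPAN : Prop :=
  ∀ (N : Type) [Field N] (I 𝒟 : Type) (τ : I → 𝒟 → N),
    FiniteDimensional N (Submodule.span N (Set.range τ)) →
    ∃ (e : ℕ) (h : Fin e → I) (a : I → Fin e → N) (D : Fin e → 𝒟),
      (∀ f d, τ f d = ∑ i, a f i * τ (h i) d) ∧
      (Matrix.of fun i j => τ (h i) (D j) : Matrix (Fin e) (Fin e) N).det ≠ 0

/-- **PTS.** The comparison of two fibres. -/
def S_PTS : Prop :=
  ∀ (N K E : Type) [Field N] [Field K] [Field E] [Algebra ℂ N] [Algebra ℂ K] [Algebra ℂ E]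
    [Algebra N K] [Algebra E K] [IsScalarTower ℂ N K] [IsScalarTower ℂ E K]
    [FiniteDimensional N K] (Φ : Set E) (g : ℕ), Sep Φ g →
    2 * finrank N (IntermediateField.adjoin N (Set.range (algebraMap E K))) < g →
    ∀ (𝒟 : Type) (J : 𝒟 → K),
    (∀ D, J D ∈ IntermediateField.adjoin N (Set.range (algebraMap E K))) → (∃ D, J D ≠ 0) →
    ∀ (e : ℕ) (h : Fin e → E) (a : E → Fin e → N) (Ds : Fin e → 𝒟),
    (∀ f ∈ Φ, ∀ D, Algebra.trace N K (J D * algebraMap E K f) =
      ∑ i, a f i * Algebra.trace N K (J D * algebraMap E K (h i))) →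
    (Matrix.of fun i j => Algebra.trace N K (J (Ds j) * algebraMap E K (h i)) :
      Matrix (Fin e) (Fin e) N).det ≠ 0 →
    ∀ z : E, IsAlgebraic
      (IntermediateField.adjoin ℂ (Set.range fun p : Φ × Fin e => a (p.1 : E) p.2))
      (algebraMap E K z)

/-- **BASE.** The smallest algebraically closed subfield over which a multi-valued map is defined. -/
def S_BASE : Prop :=
  ∀ (L K E : Type) [Field L] [Field K] [Field E] [Algebra ℂ L] [Algebra ℂ K] [Algebra ℂ E]
    [Algebra L K] [Algebra E K] [IsScalarTower ℂ L K] [IsScalarTower ℂ E K]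
    [FiniteDimensional L K] [Algebra.EssFiniteType ℂ E],
    ∃ N : IntermediateField ℂ L, (∀ z : L, IsAlgebraic N z → z ∈ N) ∧
      (∀ z : E, IsAlgebraic N (algebraMap E K z)) ∧
      FiniteDimensional N (IntermediateField.adjoin N (Set.range (algebraMap E K))) ∧
      finrank N (IntermediateField.adjoin N (Set.range (algebraMap E K))) ≤
        finrank L (IntermediateField.adjoin L (Set.range (algebraMap E K))) ∧
      ∀ R : IntermediateField ℂ L, R ≤ N → (∀ z : E, IsAlgebraic R (algebraMap E K z)) →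
        ∀ z ∈ N, IsAlgebraic R z

/-- **MLIN.** Determinants of traces of determinants are multilinear in the vector fields. -/
def S_MLIN : Prop :=
  ∀ (N K : Type) [Field N] [Field K] [Algebra ℂ N] [Algebra ℂ K] [Algebra N K]
    [IsScalarTower ℂ N K] [FiniteDimensional N K] (m e : ℕ) (x : Fin m → K) (h : Fin e → K)
    (lift : Derivation ℂ N N → Derivation ℂ K K),
    (∀ D f, lift D (algebraMap N K f) = algebraMap N K (D f)) →
    ∃ (r : ℕ) (ψ : Fin e → Fin m → Fin r)
      (T : MultilinearMap N (fun _ : Fin r => Derivation ℂ N N) N),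
      (∀ D' : Fin e → Fin m → Derivation ℂ N N, ∃ D : Fin r → Derivation ℂ N N,
        ∀ j k, D (ψ j k) = D' j k) ∧
      ∀ D : Fin r → Derivation ℂ N N, T D =
        (Matrix.of fun i j => Algebra.trace N K
          ((Matrix.of fun k l => lift (D (ψ j k)) (x l) : Matrix (Fin m) (Fin m) K).det * h i) :
          Matrix (Fin e) (Fin e) N).det

end Pool.Agent.N214.CP
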