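import Pool.Agent.Y172.Cov3
import Pool.Agent.Y692.NT.Tr

/-!
Traces of regular forms of degree lower than the dimension are regular.
-/

set_option autoImplicit false
set_option linter.overlappingInstances false
set_option linter.unusedSectionVars false

open FF Pool.Agent.W602.GT Pool.Agent.W603.LV Pool.Agent.Y172

namespace Pool.Agent.N214.CP

section

variable {k K L : Type} [Field k] [CharZero k] [Field K] [Field L] [Algebra k K] [Algebra k L]
  [Algebra K L] [IsScalarTower k K L] [FiniteDimensional K L] {n : ℕ}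
  {P : Place k K} {Q : Place k L} {e : ℕ} {y : Fin n → K} {E : Fin n → Derivation k K K}
  {i0 : Fin n}

/-- logarithmic vector fields are regular -/
theorem derReg_of_log {P : Place k K} {D : Derivation k K K} (h : DerLog P D) : DerReg P D := by
  intro f hf
  by_cases h0 : f = 0
  · rw [h0, map_zero]
    exact P.reg_zero
  · have h3 := P.reg_mul (h f) hf
    rwa [div_mul_cancel₀ _ h0] at h3

theorem det_pluri (u : Fin n → L) :
    IsPluri 1 (fun D : Fin n → Derivation k L L =>
      (Matrix.of fun i j => D i (u j) : Matrix (Fin n) (Fin n) L).det) := by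
  intro A D
  change (Matrix.of fun i j => (∑ l, A i l • D l) (u j) : Matrix (Fin n) (Fin n) L).det = _
  rw [pow_one, ← Matrix.det_mul]
  congr 1
  ext i j
  rw [Matrix.of_apply, Matrix.mul_apply, sum_smul_apply]
  rfl

/-- the lift of the normal vector field has a pole of order at most `e - 1` -/
theorem lift_pole [Algebra.EssFiniteType k L] (hn : Algebra.trdeg k L = n) (h : Over Q P e)
    (hQ : Divisorial n Q) (hl : Loc P y E i0) {E' : Fin n → Derivation k L L}
    (hE' : ∀ i f, E' i (algebraMap K L f) = algebraMap K L (E i f)) {z : L} (hz : Q.Reg z) :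
    Ge Q (1 - e) (E' i0 z) := by
  classical
  obtain ⟨u, hu⟩ : ∃ u : Fin n → L,
    u = Function.update (fun j => algebraMap K L (y j)) i0 z := ⟨_, rfl⟩
  have hureg : ∀ j, Q.Reg (u j) := by
    intro j
    rw [hu]
    by_cases hj : j = i0
    · rw [hj, Function.update_self]
      exact hz
    · rw [Function.update_of_ne hj]
      exact h.reg.2 (hl.reg j)
  have h1 := down_ge hn h hQ hl hE' (det_pluri u) (c := 0) (fun G hG => by
    have h9 : Ge Q 0 (Matrix.of fun i j => G i (u j) : Matrix (Fin n) (Fin n) L).det :=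
      Pool.Agent.W603.LV.ge_det Q _ _ (fun _ _ => 0) (fun a b => hG a _ (hureg b))
        fun σ => by simp
    rcases h9 with h9 | h9
    · exact Or.inl h9
    · exact Or.inr (by exact_mod_cast h9))
  have h2 : (Matrix.of fun i j => E' i (u j) : Matrix (Fin n) (Fin n) L).det = E' i0 z := by
    have h3 : (Matrix.of fun i j => E' i (u j) : Matrix (Fin n) (Fin n) L) =
        (1 : Matrix (Fin n) (Fin n) L).updateCol i0 (fun i => E' i z) := by
      ext i j
      rw [Matrix.of_apply, hu, Matrix.updateCol_apply]
      by_cases hj : j = i0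
      · rw [hj, Function.update_self, if_pos rfl]
      · rw [Function.update_of_ne hj, if_neg hj, lift_dual hl.dual hE', Matrix.one_apply]
    rw [h3, ← Matrix.cramer_apply, Matrix.cramer_one]
    rfl
  rw [h2] at h1
  rcases h1 with h1 | h1
  · exact Or.inl h1
  · right
    have h3 : ((1 - e : ℤ) : ℝ) ≤ (Q.ord (E' i0 z) : ℝ) := by
      push_cast
      push_cast at h1
      linarith
    exact_mod_cast h3

/-- expansion of the determinants in coordinates -/
theorem det_expand (hy : IsTranscendenceBasis k y)
    (hE : ∀ i j, E i (y j) = if i = j then 1 else 0) {E' : Fin n → Derivation k L L}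
    (hE' : ∀ i f, E' i (algebraMap K L f) = algebraMap K L (E i f)) {m : ℕ} (x : Fin m → L)
    (Z : Fin m → Derivation k L L) :
    (Matrix.of fun i j => Z i (x j) : Matrix (Fin m) (Fin m) L).det =
      ∑ κ : Fin m → Fin n, (∏ i, Z i (algebraMap K L (y (κ i)))) *
        (Matrix.of fun i j => E' (κ i) (x j) : Matrix (Fin m) (Fin m) L).det := by
  classical
  have hexp : ∀ i, ∑ b, Z i (algebraMap K L (y b)) • E' b = Z i := fun i =>
    Pool.Agent.W73.PG.PULL.expand _ (hy.algebraMap_comp (A := L)) E'
      (lift_dual hE hE') (Z i)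
  have h1 : (Matrix.of fun i j => Z i (x j) : Matrix (Fin m) (Fin m) L) =
      fun i => ∑ b, Z i (algebraMap K L (y b)) • (fun j => E' b (x j)) := by
    ext i j
    rw [Matrix.of_apply, Finset.sum_apply]
    conv_lhs => rw [← hexp i]
    rw [sum_smul_apply]
    rfl
  have h2 : ∀ M : Matrix (Fin m) (Fin m) L, M.det = Matrix.detRowAlternating M := fun M => rfl
  rw [h1, h2]
  have h3 := (Matrix.detRowAlternating (n := Fin m) (R := L)).toMultilinearMap.map_sum
    (fun (i : Fin m) (b : Fin n) => Z i (algebraMap K L (y b)) • (fun j => E' b (x j)))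
  refine h3.trans (Finset.sum_congr rfl fun κ _ => ?_)
  have h4 := (Matrix.detRowAlternating (n := Fin m) (R := L)).toMultilinearMap.map_smul_univ
    (fun i => Z i (algebraMap K L (y (κ i)))) (fun i j => E' (κ i) (x j))
  refine h4.trans ?_
  rw [smul_eq_mul]
  rfl

/-- expansion of the traces in coordinates -/
theorem tr_expand (hy : IsTranscendenceBasis k y)
    (hE : ∀ i j, E i (y j) = if i = j then 1 else 0) {E' : Fin n → Derivation k L L}
    (hE' : ∀ i f, E' i (algebraMap K L f) = algebraMap K L (E i f)) {m : ℕ} (x : Fin m → L)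
    (f : L) (G : Fin m → Derivation k K K) (G' : Fin m → Derivation k L L)
    (hG' : ∀ i f, G' i (algebraMap K L f) = algebraMap K L (G i f)) :
    Algebra.trace K L
      ((Matrix.of fun i j => G' i (x j) : Matrix (Fin m) (Fin m) L).det * f) =
      ∑ κ : Fin m → Fin n, (∏ i, G i (y (κ i))) * Algebra.trace K L
        ((Matrix.of fun i j => E' (κ i) (x j) : Matrix (Fin m) (Fin m) L).det * f) := by
  classical
  rw [det_expand hy hE hE' x G', Finset.sum_mul, map_sum]
  refine Finset.sum_congr rfl fun κ _ => ?_
  have h1 : ∏ i, G' i (algebraMap K L (y (κ i))) = algebraMap K L (∏ i, G i (y (κ i))) := by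
    rw [map_prod]
    exact Finset.prod_congr rfl fun i _ => hG' i _
  rw [h1, mul_assoc, ← Algebra.smul_def, map_smul, smul_eq_mul]

/-- **Traces of regular forms of lower degree.** -/
theorem treg [Algebra.EssFiniteType k K] [Algebra.EssFiniteType k L]
    (hn : Algebra.trdeg k K = n) {m : ℕ} (x : Fin m → L) (f : L) {P : Place k K}
    (hP : Divisorial n P)
    (hreg : ∀ (Q : Place k L) (e : ℕ), Over Q P e → ∀ D : Fin m → Derivation k L L,
      (∀ i, DerReg Q (D i)) →
      Q.Reg ((Matrix.of fun i j => D i (x j) : Matrix (Fin m) (Fin m) L).det * f))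
    (G : Fin m → Derivation k K K) (hG : ∀ i, DerReg P (G i)) (G' : Fin m → Derivation k L L)
    (hG' : ∀ i f, G' i (algebraMap K L f) = algebraMap K L (G i f)) :
    P.Reg (Algebra.trace K L
      ((Matrix.of fun i j => G' i (x j) : Matrix (Fin m) (Fin m) L).det * f)) := by
  classical
  have hnL : Algebra.trdeg k L = n := trdeg_up (K := K) hn
  obtain ⟨y, E, i0, hl⟩ := exists_loc hn hP
  choose E' hE' using fun i => exists_lift (L := L) hn (E i)
  rw [tr_expand hl.bas hl.dual hE' x f G G' hG']
  have hterm : ∀ κ : Fin m → Fin n, Ge P 0 ((∏ i, G i (y (κ i))) * Algebra.trace K L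
        ((Matrix.of fun i j => E' (κ i) (x j) : Matrix (Fin m) (Fin m) L).det * f)) := by
    intro κ
    refine P.reg_mul ?_ ?_
    · have h1 : ∀ s : Finset (Fin m), P.Reg (∏ i ∈ s, G i (y (κ i))) := by
        intro s
        induction s using Finset.induction_on with
        | empty =>
          rw [Finset.prod_empty]
          exact P.reg_one
        | insert a s ha ih =>
          rw [Finset.prod_insert ha]
          exact P.reg_mul (hG a _ (hl.reg _)) ih
      exact h1 _
    refine Pool.Agent.Y692.NT.trace_reg P _ fun Q e hQ => ?_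
    by_cases hκ : Function.Injective κ
    swap
    · left
      rw [Function.Injective] at hκ
      push Not at hκ
      obtain ⟨a, b, hab, hne⟩ := hκ
      rw [Matrix.det_zero_of_row_eq hne (by
        ext j
        rw [Matrix.of_apply, Matrix.of_apply, hab]), zero_mul]
    have hQd : Divisorial n Q := divisorial_up hQ hP
    have he : (1 : ℤ) ≤ e := by exact_mod_cast hQ.1
    obtain ⟨ϖ, hϖ0, hϖ⟩ := Q.surj
    obtain ⟨s, hs⟩ : ∃ s : Fin m → L, s = fun i => if κ i = i0 then ϖ ^ (e - 1) else 1 :=
      ⟨_, rfl⟩
    have hD : ∀ i, DerReg Q (s i • E' (κ i)) := by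
      intro i
      rw [hs]
      by_cases hi : κ i = i0
      · rw [hi]
        intro z hz
        change Q.Reg ((if κ i = i0 then ϖ ^ (e - 1) else 1) * E' i0 z)
        rw [if_pos hi]
        have h1 : Ge Q ((e - 1 : ℕ) : ℤ) (ϖ ^ (e - 1)) := by
          right
          rw [Q.ord_pow, hϖ, mul_one]
        have h2 := h1.mul (lift_pole hnL hQ hQd hl hE' hz)
        have h3 : (((e - 1 : ℕ) : ℤ) + (1 - e)) = 0 := by
          have := hQ.1
          omega
        rw [h3] at h2
        exact h2
      · have h1 : (if κ i = i0 then ϖ ^ (e - 1) else 1) • E' (κ i) = E' (κ i) := by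
          rw [if_neg hi, one_smul]
        change DerReg Q ((if κ i = i0 then ϖ ^ (e - 1) else 1) • E' (κ i))
        rw [h1]
        have h2 : DerLog P (E (κ i)) := by
          have h3 := hl.log (κ i)
          unfold lc at h3
          rwa [if_neg hi, one_smul] at h3
        exact derReg_of_log (lift_log hQ h2 (hE' (κ i)))
    have h1 := hreg Q e hQ (fun i => s i • E' (κ i)) hD
    have h2 : (Matrix.of fun i j => (s i • E' (κ i)) (x j) : Matrix (Fin m) (Fin m) L).det =
        (∏ i, s i) * (Matrix.of fun i j => E' (κ i) (x j) : Matrix (Fin m) (Fin m) L).det := by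
      rw [← Matrix.det_mul_column]
      rfl
    rw [h2, mul_assoc] at h1
    obtain ⟨c, hc1, hc⟩ : ∃ c : ℕ, c ≤ 1 ∧ ∏ i, s i = (ϖ ^ (e - 1)) ^ c := by
      refine ⟨(Finset.univ.filter fun i => κ i = i0).card, ?_, ?_⟩
      · rw [Finset.card_le_one]
        intro a ha b hb
        rw [Finset.mem_filter] at ha hb
        exact hκ (ha.2.trans hb.2.symm)
      · rw [hs, Finset.prod_ite, Finset.prod_const, Finset.prod_const_one, mul_one]
    rw [hc] at h1
    by_cases h0 : (Matrix.of fun i j => E' (κ i) (x j) : Matrix (Fin m) (Fin m) L).det * f = 0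
    · exact Or.inl h0
    right
    have h3 : (ϖ ^ (e - 1)) ^ c ≠ 0 := pow_ne_zero _ (pow_ne_zero _ hϖ0)
    rcases h1 with h1 | h1
    · exact absurd h1 (mul_ne_zero h3 h0)
    rw [Q.ord_mul h3 h0, Q.ord_pow, Q.ord_pow, hϖ, mul_one] at h1
    have h4 : (c : ℤ) * ((e - 1 : ℕ) : ℤ) ≤ ((e - 1 : ℕ) : ℤ) := by
      have : (c : ℤ) ≤ 1 := by exact_mod_cast hc1
      nlinarith [Int.natCast_nonneg (e - 1)]
    have h5 : ((e - 1 : ℕ) : ℤ) = e - 1 := by
      have := hQ.1
      omega
    rw [h5] at h1 h4
    linarith
  have hall : ∀ s : Finset (Fin m → Fin n), P.Reg (∑ κ ∈ s, (∏ i, G i (y (κ i))) *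
      Algebra.trace K L
        ((Matrix.of fun i j => E' (κ i) (x j) : Matrix (Fin m) (Fin m) L).det * f)) := by
    intro s
    induction s using Finset.induction_on with
    | empty =>
      rw [Finset.sum_empty]
      exact P.reg_zero
    | insert a s ha ih =>
      rw [Finset.sum_insert ha]
      exact P.reg_add (hterm a) ih
  exact hall _

end

end Pool.Agent.N214.CP
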